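import Pool.Agent.Helper85.QT.St2

/-!
# Project QT (MP_d112a4_gt): module HN1, distortion of conformal maps of strips
-/

set_option autoImplicit false

open MeasureTheory Matrix Set Topology
open scoped ENNReal ComplexConjugate

namespace Pool.Agent.Helper66.QT

open Pool.Agent.Helper85.QT Pool.Agent.Helper86.QA

private theorem ball_sub (m r : ℝ) (w : ℂ) (h : r ≤ dd m w) : Metric.ball w r ⊆ Sm m := by
  intro z hz
  rw [Metric.mem_ball, dist_eq_norm] at hz
  have h1 := (Complex.abs_im_le_norm (z - w)).trans_lt hz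
  rw [Complex.sub_im, abs_lt] at h1
  have h2 : dd m w ≤ w.im := min_le_left _ _
  have h3 : dd m w ≤ m - w.im := min_le_right _ _
  constructor <;> linarith [h1.1, h1.2]

theorem hHN1 (hKQ : StKQ) : StHN1 := by
  intro m f hf
  obtain ⟨-, -, k3, k4⟩ := hKQ
  have hper : ∀ w : ℂ, ∀ r : ℝ, 0 < r → r ≤ dd m w → ‖f (w + 1) - f w‖ = 1 := by
    intro w r hr h
    rw [hf.per w (ball_sub m r w h (Metric.mem_ball_self hr)), add_sub_cancel_left, norm_one]
  have hmem : ∀ (w : ℂ) (r : ℝ), 1 < r → w + 1 ∈ Metric.ball w r := by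
    intro w r hr
    rw [Metric.mem_ball, dist_eq_norm, add_sub_cancel_left, norm_one]
    exact hr
  have h2 : ∀ w : ℂ, 2 ≤ dd m w → 1 / 4 ≤ ‖deriv f w‖ := by
    intro w hw
    have hb := ball_sub m 2 w hw
    have h := (k4 f w 2 (by norm_num) (hf.dif.mono hb) (hf.inj.mono hb) (w + 1) (hmem w 2 (by norm_num))).2
    rw [hper w 2 (by norm_num) hw, add_sub_cancel_left, norm_one] at h
    rw [le_div_iff₀ (by norm_num)] at h
    norm_num at h
    linarith
  refine ⟨?_, h2, ?_⟩
  · intro w hw
    have hb := ball_sub m (3 / 2) w hw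
    have h := (k4 f w (3 / 2) (by norm_num) (hf.dif.mono hb) (hf.inj.mono hb) (w + 1)
      (hmem w (3 / 2) (by norm_num))).1
    rw [hper w (3 / 2) (by norm_num) hw, add_sub_cancel_left, norm_one] at h
    rw [div_le_iff₀ (by norm_num)] at h
    norm_num at h
    linarith
  · intro w r hr hrw
    have hb := ball_sub m r w hrw
    have h := k3 f w r (by linarith) (hf.dif.mono hb) (hf.inj.mono hb)
    refine (Metric.ball_subset_ball ?_).trans h
    have h1 := h2 w (hr.trans hrw)
    have h3 : r * (1 / 4) ≤ r * ‖deriv f w‖ := mul_le_mul_of_nonneg_left h1 (by linarith)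
    linarith

end Pool.Agent.Helper66.QT
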