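import Pool.Agent.Helper85.QT.St3

/-!
# Project QT, module CRF: the Crofton formula.
-/

set_option autoImplicit false

open MeasureTheory Matrix Set Topology
open scoped ENNReal ComplexConjugate

namespace Pool.Agent.Helper66.QT

open Pool.Agent.Helper85.QT Pool.Agent.Helper86.QA

theorem crf_cosh_int : Integrable (fun u : ℝ => 1 / Real.cosh u ^ 2) := by
  refine Integrable.mono' integrable_inv_one_add_sq ?_ ?_
  · apply Measurable.aestronglyMeasurable
    have := Real.continuous_cosh.measurable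
    fun_prop
  · refine Filter.Eventually.of_forall fun u => ?_
    have h1 : u ^ 2 ≤ Real.sinh u ^ 2 := by
      rw [sq_le_sq]
      rcases le_total 0 u with h | h
      · rw [abs_of_nonneg h, abs_of_nonneg (Real.sinh_nonneg_iff.mpr h)]
        exact Real.self_le_sinh_iff.mpr h
      · rw [abs_of_nonpos h, abs_of_nonpos (Real.sinh_nonpos_iff.mpr h)]
        have := Real.sinh_le_self_iff.mpr h
        linarith
    have h2 := Real.cosh_sq u
    have h3 : 0 < Real.cosh u := Real.cosh_pos u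
    rw [Real.norm_eq_abs, abs_of_pos (by positivity), one_div]
    apply inv_anti₀ (by positivity)
    rw [h2]; linarith

theorem crf_cosh_val : ∫ u : ℝ, 1 / Real.cosh u ^ 2 = 2 := by
  have hd : ∀ u : ℝ, HasDerivAt (fun u : ℝ => -2 / (1 + Real.exp (2 * u))) (1 / Real.cosh u ^ 2) u := by
    intro u
    have h1 : HasDerivAt (fun u : ℝ => 1 + Real.exp (2 * u)) (Real.exp (2 * u) * 2) u := by
      have h2 : HasDerivAt (fun u : ℝ => 2 * u) 2 u := by simpa using (hasDerivAt_id u).const_mul (2 : ℝ)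
      exact (h2.exp).const_add 1
    have hne : 1 + Real.exp (2 * u) ≠ 0 := by positivity
    have h3 := (hasDerivAt_const u (-2 : ℝ)).div h1 hne
    refine HasDerivAt.congr_deriv h3 ?_
    rw [Real.cosh_eq, show 2 * u = u + u by ring, Real.exp_add, Real.exp_neg]
    have := Real.exp_pos u
    field_simp
    ring
  have hbot : Filter.Tendsto (fun u : ℝ => -2 / (1 + Real.exp (2 * u))) Filter.atBot (𝓝 (-2)) := by
    have h1 : Filter.Tendsto (fun u : ℝ => Real.exp (2 * u)) Filter.atBot (𝓝 0) :=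
      Real.tendsto_exp_atBot.comp (Filter.tendsto_id.const_mul_atBot (by norm_num : (0 : ℝ) < 2))
    have h2 : Filter.Tendsto (fun u : ℝ => -2 / (1 + Real.exp (2 * u))) Filter.atBot (𝓝 (-2 / (1 + 0))) :=
      tendsto_const_nhds.div (tendsto_const_nhds.add h1) (by norm_num)
    simpa using h2
  have htop : Filter.Tendsto (fun u : ℝ => -2 / (1 + Real.exp (2 * u))) Filter.atTop (𝓝 0) := by
    have h1 : Filter.Tendsto (fun u : ℝ => Real.exp (2 * u)) Filter.atTop Filter.atTop :=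
      Real.tendsto_exp_atTop.comp (Filter.tendsto_id.const_mul_atTop (by norm_num : (0 : ℝ) < 2))
    exact tendsto_const_nhds.div_atTop (Filter.tendsto_atTop_add_const_left _ _ h1)
  have := integral_of_hasDerivAt_of_tendsto hd crf_cosh_int hbot htop
  rw [this]; norm_num

theorem crf_cosh_lint (c : ℝ) : ∫⁻ u : ℝ, ENNReal.ofReal (1 / Real.cosh (u + c) ^ 2) = 2 := by
  rw [lintegral_add_right_eq_self (fun u : ℝ => ENNReal.ofReal (1 / Real.cosh u ^ 2)) c]
  rw [← ofReal_integral_eq_lintegral_ofReal crf_cosh_int (Filter.Eventually.of_forall fun u => by positivity),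
    crf_cosh_val]
  simp

theorem crf_pp (a b : ℂ) (hab : a ≠ b) (ξ : ℂ) (ha : ξ ≠ a) (hb : ξ ≠ b) (u : ℝ) :
    pp (gp a b u) ξ ^ 2 = (‖a - b‖ ^ 2 / (4 * ‖ξ - a‖ ^ 2 * ‖ξ - b‖ ^ 2)) *
      (1 / Real.cosh (u + Real.log (‖ξ - a‖ / ‖ξ - b‖)) ^ 2) := by
  have hl : 0 < ‖a - b‖ := norm_pos_iff.mpr (sub_ne_zero.mpr hab)
  have hA : 0 < ‖ξ - a‖ := norm_pos_iff.mpr (sub_ne_zero.mpr ha)
  have hB : 0 < ‖ξ - b‖ := norm_pos_iff.mpr (sub_ne_zero.mpr hb)
  have h1 : Real.cosh (u + Real.log (‖ξ - a‖ / ‖ξ - b‖)) =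
      (Real.exp u * ‖ξ - a‖ ^ 2 + Real.exp (-u) * ‖ξ - b‖ ^ 2) / (2 * ‖ξ - a‖ * ‖ξ - b‖) := by
    have h0 : 0 < ‖ξ - a‖ / ‖ξ - b‖ := by positivity
    rw [Real.cosh_eq, show -(u + Real.log (‖ξ - a‖ / ‖ξ - b‖)) = -u - Real.log (‖ξ - a‖ / ‖ξ - b‖) by ring,
      Real.exp_add, Real.exp_sub, Real.exp_log h0]
    field_simp
  have h2 : pp (gp a b u) ξ = ‖a - b‖ / (Real.exp u * ‖ξ - a‖ ^ 2 + Real.exp (-u) * ‖ξ - b‖ ^ 2) := by
    have hpq : Real.exp u * Real.exp (-u) = 1 := by rw [← Real.exp_add]; simp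
    have hp : 0 < Real.exp u := Real.exp_pos u
    have hq : 0 < Real.exp (-u) := Real.exp_pos (-u)
    unfold pp gp
    dsimp only
    generalize hP : Real.exp u = p at *
    generalize hQ : Real.exp (-u) = q at *
    have hs : 0 < p + q := by positivity
    have hsc : ((p : ℂ) + (q : ℂ)) ≠ 0 := by
      have : ((p + q : ℝ) : ℂ) ≠ 0 := by exact_mod_cast hs.ne'
      rwa [Complex.ofReal_add] at this
    have e1 : ((p : ℂ) * a + (q : ℂ) * b) / ((p + q : ℝ) : ℂ) - ξ =
        ((p : ℂ) * (a - ξ) + (q : ℂ) * (b - ξ)) / ((p + q : ℝ) : ℂ) := by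
      push_cast
      field_simp
      ring
    have e2 : ‖(p : ℂ) * (a - ξ) + (q : ℂ) * (b - ξ)‖ ^ 2 + ‖a - b‖ ^ 2 =
        (p * ‖ξ - a‖ ^ 2 + q * ‖ξ - b‖ ^ 2) * (p + q) := by
      rw [Complex.sq_norm, Complex.sq_norm, Complex.sq_norm, Complex.sq_norm, Complex.normSq_apply,
        Complex.normSq_apply, Complex.normSq_apply, Complex.normSq_apply]
      simp only [Complex.add_re, Complex.add_im, Complex.mul_re, Complex.mul_im, Complex.ofReal_re, Complex.ofReal_im,
        Complex.sub_re, Complex.sub_im]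
      linear_combination (-((a.re - b.re) ^ 2 + (a.im - b.im) ^ 2)) * hpq
    rw [e1, norm_div, Complex.norm_real, Real.norm_eq_abs, abs_of_pos hs, div_pow, div_pow, ← add_div, e2]
    field_simp
  rw [h1, h2]
  have hp : 0 < Real.exp u := Real.exp_pos u
  have hq : 0 < Real.exp (-u) := Real.exp_pos (-u)
  field_simp
  ring

theorem crf_gp_cont (a b : ℂ) : Continuous (fun u : ℝ => gp a b u) := by
  unfold gp
  refine Continuous.prodMk ?_ ?_
  · apply Continuous.div
    · fun_prop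
    · exact Complex.continuous_ofReal.comp (by fun_prop)
    · intro u
      have : 0 < Real.exp u + Real.exp (-u) := by positivity
      exact_mod_cast this.ne'
  · apply Continuous.div continuous_const (by fun_prop)
    intro u
    positivity

theorem hCRF (hHME : Pool.Agent.Helper86.QA.StHME) (_hSB5 : Pool.Agent.Helper85.QT.StSB5) :
    Pool.Agent.Helper85.QT.StCRF := by
  intro a b hab
  have hl : 0 < ‖a - b‖ := norm_pos_iff.mpr (sub_ne_zero.mpr hab)
  have h1 : ∀ ξ : ℂ, ξ ≠ a → ξ ≠ b →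
      ∫⁻ u : ℝ, ENNReal.ofReal (pp (gp a b u) ξ ^ 2) = ENNReal.ofReal (‖th a b ξ‖ / 2) := by
    intro ξ ha hb
    have hA : 0 < ‖ξ - a‖ := norm_pos_iff.mpr (sub_ne_zero.mpr ha)
    have hB : 0 < ‖ξ - b‖ := norm_pos_iff.mpr (sub_ne_zero.mpr hb)
    have e0 : ∀ u : ℝ, ENNReal.ofReal (pp (gp a b u) ξ ^ 2) =
        ENNReal.ofReal (‖a - b‖ ^ 2 / (4 * ‖ξ - a‖ ^ 2 * ‖ξ - b‖ ^ 2)) *
        ENNReal.ofReal (1 / Real.cosh (u + Real.log (‖ξ - a‖ / ‖ξ - b‖)) ^ 2) := by
      intro u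
      rw [crf_pp a b hab ξ ha hb u, ENNReal.ofReal_mul (by positivity)]
    rw [lintegral_congr e0, lintegral_const_mul' _ _ ENNReal.ofReal_ne_top, crf_cosh_lint]
    rw [show (2 : ℝ≥0∞) = ENNReal.ofReal 2 by simp, ← ENNReal.ofReal_mul (by positivity)]
    congr 1
    unfold th
    rw [norm_div, norm_mul, norm_pow, norm_pow, norm_pow]
    field_simp
    norm_num
  refine ⟨h1, ?_, ?_⟩
  · intro V hV
    have hup : ∀ u : ℝ, gp a b u ∈ up := by
      intro u
      show 0 < ‖a - b‖ / (Real.exp u + Real.exp (-u))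
      positivity
    have e1 : ∫⁻ ξ in V, ENNReal.ofReal ‖th a b ξ‖ =
        ∫⁻ ξ in V, 2 * ∫⁻ u : ℝ, ENNReal.ofReal (pp (gp a b u) ξ ^ 2) := by
      apply lintegral_congr_ae
      have hz : ∀ᵐ ξ ∂(volume : Measure ℂ), ξ ≠ a ∧ ξ ≠ b := by
        have ha : ∀ᵐ ξ ∂(volume : Measure ℂ), ξ ≠ a := by
          rw [ae_iff]; simp
        have hb : ∀ᵐ ξ ∂(volume : Measure ℂ), ξ ≠ b := by
          rw [ae_iff]; simp
        filter_upwards [ha, hb] with ξ h2 h3 using ⟨h2, h3⟩
      filter_upwards [ae_restrict_of_ae hz] with ξ hξ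
      rw [h1 ξ hξ.1 hξ.2]
      rw [show (2 : ℝ≥0∞) = ENNReal.ofReal 2 by simp, ← ENNReal.ofReal_mul (by positivity)]
      congr 1
      ring
    have hm : Measurable (fun p : ℂ × ℝ => ENNReal.ofReal (pp (gp a b p.2) p.1 ^ 2)) := by
      have hg : Measurable (fun p : ℂ × ℝ => gp a b p.2) := (crf_gp_cont a b).measurable.comp measurable_snd
      unfold pp
      have h2 : Measurable (fun p : ℂ × ℝ => (gp a b p.2).1) := measurable_fst.comp hg
      have h3 : Measurable (fun p : ℂ × ℝ => (gp a b p.2).2) := measurable_snd.comp hg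
      apply Measurable.ennreal_ofReal
      apply Measurable.pow_const
      apply Measurable.div h3
      exact (((h2.sub measurable_fst).norm).pow_const 2).add (h3.pow_const 2)
    have e2 : ∫⁻ ξ in V, 2 * ∫⁻ u : ℝ, ENNReal.ofReal (pp (gp a b u) ξ ^ 2) =
        2 * ∫⁻ u : ℝ, ∫⁻ ξ in V, ENNReal.ofReal (pp (gp a b u) ξ ^ 2) := by
      rw [lintegral_const_mul' _ _ (by simp)]
      congr 1
      exact lintegral_lintegral_swap hm.aemeasurable
    rw [e1, e2]
    have e3 : ∀ u : ℝ, ∫⁻ ξ in V, ENNReal.ofReal (pp (gp a b u) ξ ^ 2) =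
        ENNReal.ofReal Real.pi * ENNReal.ofReal (hv V (gp a b u)) := by
      intro u
      rw [← ENNReal.ofReal_mul Real.pi_pos.le]
      unfold hv
      rw [← ofReal_integral_eq_lintegral_ofReal (hHME.1 V (gp a b u) hV (hup u)).1
        (Filter.Eventually.of_forall fun u => by positivity)]
      congr 1
      have := Real.pi_pos
      field_simp
    rw [lintegral_congr e3, lintegral_const_mul' _ _ ENNReal.ofReal_ne_top, ← mul_assoc]
    congr 1
    rw [show (2 : ℝ≥0∞) = ENNReal.ofReal 2 by simp, ← ENNReal.ofReal_mul (by norm_num)]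
  · intro V hV
    exact (hHME.2.2.1 V hV).1.comp (crf_gp_cont a b).measurable

end Pool.Agent.Helper66.QT
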