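import Pool.Agent.Helper85.QT.St3

/-!
# Project QT, module PUL: the quadratic differential in the coordinate of the annulus.
-/

set_option autoImplicit false

open MeasureTheory Matrix Set Topology
open scoped ENNReal ComplexConjugate

namespace Pool.Agent.Helper66.QT

open Pool.Agent.Helper85.QT Pool.Agent.Helper86.QA

/-- the real linear map of a complex derivative -/
noncomputable def pulD (c : ℂ) : ℂ →L[ℝ] ℂ :=
  ContinuousLinearMap.restrictScalars ℝ (ContinuousLinearMap.smulRight (1 : ℂ →L[ℂ] ℂ) c)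

theorem pulD_det (c : ℂ) : (pulD c).det = ‖c‖ ^ 2 := by
  have h1 : (pulD c).det = LinearMap.det
      ((ContinuousLinearMap.smulRight (1 : ℂ →L[ℂ] ℂ) c : ℂ →ₗ[ℂ] ℂ).restrictScalars ℝ) := rfl
  rw [h1, LinearMap.det_restrictScalars, Algebra.norm_complex_apply, Complex.normSq_eq_norm_sq]
  congr 2
  have h2 : (ContinuousLinearMap.smulRight (1 : ℂ →L[ℂ] ℂ) c : ℂ →ₗ[ℂ] ℂ) = c • LinearMap.id := by
    apply LinearMap.ext
    intro z
    simp [mul_comm]
  rw [h2, LinearMap.det_smul]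
  simp

theorem pul_cv {E : Type*} [NormedAddCommGroup E] [NormedSpace ℝ E] (f f' : ℂ → ℂ) (s : Set ℂ)
    (hs : MeasurableSet s) (hd : ∀ w ∈ s, HasDerivAt f (f' w) w) (hi : InjOn f s) (g : ℂ → E) :
    (IntegrableOn g (f '' s) ↔ IntegrableOn (fun w => (‖f' w‖ ^ 2 : ℝ) • g (f w)) s) ∧
    ∫ ξ in f '' s, g ξ = ∫ w in s, (‖f' w‖ ^ 2 : ℝ) • g (f w) := by
  have hF : ∀ w ∈ s, HasFDerivWithinAt f (pulD (f' w)) s w := by
    intro w hw
    exact ((hd w hw).hasFDerivAt.restrictScalars ℝ).hasFDerivWithinAt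
  have hdet : ∀ w, |(pulD (f' w)).det| = ‖f' w‖ ^ 2 := by
    intro w
    rw [pulD_det, abs_of_nonneg (by positivity)]
  constructor
  · rw [integrableOn_image_iff_integrableOn_abs_det_fderiv_smul volume hs hF hi g]
    simp only [hdet]
  · rw [integral_image_eq_integral_abs_det_fderiv_smul volume hs hF hi g]
    simp only [hdet]

theorem pul_int1 (a : ℂ) (ε : ℝ) (hε : 0 < ε) (E : Set ℂ) (hE : MeasurableSet E) (h : ∀ ξ ∈ E, ε ≤ ‖ξ - a‖) :
    IntegrableOn (fun ξ : ℂ => 1 / ‖ξ - a‖ ^ 4) E := by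
  have h1 : Integrable (fun ξ : ℂ => (1 + ‖ξ‖) ^ (-(4 : ℝ))) := by
    apply integrable_one_add_norm
    rw [Complex.finrank_real_complex]; norm_num
  have h2 : Integrable (fun ξ : ℂ => (1 + 1 / ε) ^ 4 * (1 + ‖ξ - a‖) ^ (-(4 : ℝ))) :=
    (h1.comp_sub_right a).const_mul _
  refine Integrable.mono' h2.integrableOn ?_ ?_
  · apply Measurable.aestronglyMeasurable
    fun_prop
  · rw [ae_restrict_iff' hE]
    refine Filter.Eventually.of_forall fun ξ hξ => ?_
    have h3 := h ξ hξ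
    have h4 : 0 < ‖ξ - a‖ := lt_of_lt_of_le hε h3
    rw [Real.norm_eq_abs, abs_of_nonneg (by positivity)]
    rw [Real.rpow_neg (by positivity), show (4 : ℝ) = ((4 : ℕ) : ℝ) by norm_num, Real.rpow_natCast]
    rw [← div_eq_mul_inv, ← div_pow]
    rw [show (1 : ℝ) / ‖ξ - a‖ ^ 4 = (1 / ‖ξ - a‖) ^ 4 by rw [div_pow, one_pow]]
    apply pow_le_pow_left₀ (by positivity)
    rw [div_le_div_iff₀ h4 (by positivity), one_mul, add_mul, one_div_mul_eq_div]
    have : 1 ≤ ‖ξ - a‖ / ε := by rwa [le_div_iff₀ hε, one_mul]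
    linarith

theorem pul_int (a b : ℂ) (ε ε' : ℝ) (hε : 0 < ε) (hε' : 0 < ε') (E : Set ℂ) (hE : MeasurableSet E)
    (h : ∀ ξ ∈ E, ε ≤ ‖ξ - a‖) (h' : ∀ ξ ∈ E, ε' ≤ ‖ξ - b‖) :
    IntegrableOn (th a b) E := by
  have h1 := (pul_int1 a ε hε E hE h).add (pul_int1 b ε' hε' E hE h')
  refine Integrable.mono' (h1.const_mul (‖a - b‖ ^ 2)) ?_ ?_
  · apply Measurable.aestronglyMeasurable
    unfold th
    fun_prop
  · rw [ae_restrict_iff' hE]
    refine Filter.Eventually.of_forall fun ξ hξ => ?_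
    have h3 : 0 < ‖ξ - a‖ := lt_of_lt_of_le hε (h ξ hξ)
    have h4 : 0 < ‖ξ - b‖ := lt_of_lt_of_le hε' (h' ξ hξ)
    unfold th
    rw [norm_div, norm_mul, norm_pow, norm_pow, norm_pow]
    simp only [Pi.add_apply]
    rw [div_eq_mul_inv]
    apply mul_le_mul_of_nonneg_left _ (by positivity)
    rw [← one_div, div_add_div _ _ (by positivity) (by positivity), div_le_div_iff₀ (by positivity) (by positivity)]
    have e1 : 0 < ‖ξ - a‖ ^ 2 := by positivity
    have e2 : 0 < ‖ξ - b‖ ^ 2 := by positivity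
    have e3 : ‖ξ - a‖ ^ 4 = (‖ξ - a‖ ^ 2) ^ 2 := by ring
    have e4 : ‖ξ - b‖ ^ 4 = (‖ξ - b‖ ^ 2) ^ 2 := by ring
    rw [e3, e4]
    generalize ‖ξ - a‖ ^ 2 = X at *
    generalize ‖ξ - b‖ ^ 2 = Y at *
    have e5 : 0 < X * Y := by positivity
    nlinarith [mul_nonneg e5.le (sq_nonneg (X - Y)), mul_pos e5 e5]

theorem pul_sab (a b m : ℝ) (ha : 0 ≤ a) (hb : b ≤ m) : Sab a b ⊆ Sm m := by
  intro w hw
  exact ⟨lt_of_le_of_lt ha hw.1, lt_of_lt_of_le hw.2 hb⟩

theorem pul_open (a b : ℝ) : IsOpen (Sab a b) :=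
  (isOpen_lt continuous_const Complex.continuous_im).inter (isOpen_lt Complex.continuous_im continuous_const)

theorem pul_sm (m : ℝ) : Sab 0 m = Sm m := rfl

theorem hPUL (hANB : Pool.Agent.Helper85.QT.StANB) : Pool.Agent.Helper85.QT.StPUL := by
  intro Γ _ ρ A B α lam M G m φ C3 hAnn hCls a ha b hb ha0 hb0 hab
  obtain ⟨-, -, -, -, -, -, -, -, -, -, -, hfd, hfi, hfw, hEE⟩ := hANB Γ ρ A B α lam M G m φ C3 hAnn
  have hSo : IsOpen (Sm m) := pul_open 0 m
  obtain ⟨ε, hε, hεa⟩ := hCls a ha ha0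
  obtain ⟨ε', hε', hεb⟩ := hCls b hb hb0
  have hder : ∀ w ∈ Sm m, HasDerivAt (ff lam G φ) (deriv (ff lam G φ) w) w := by
    intro w hw
    exact ((hfd w hw).differentiableAt (hSo.mem_nhds hw)).hasDerivAt
  have hmem : ∀ w ∈ Sm m, ff lam G φ w ∈ EE lam G φ 0 m := by
    intro w hw
    exact ⟨w, hw, rfl⟩
  have hna : ∀ w ∈ Sm m, ff lam G φ w - a ≠ 0 := by
    intro w hw h
    have := hεa _ (hmem w hw)
    rw [h, norm_zero] at this
    linarith
  have hnb : ∀ w ∈ Sm m, ff lam G φ w - b ≠ 0 := by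
    intro w hw h
    have := hεb _ (hmem w hw)
    rw [h, norm_zero] at this
    linarith
  have h1 : DifferentiableOn ℂ (fun w => th a b (ff lam G φ w) * deriv (ff lam G φ) w ^ 2) (Sm m) := by
    have hd2 : DifferentiableOn ℂ (deriv (ff lam G φ)) (Sm m) := hfd.deriv hSo
    unfold th
    refine DifferentiableOn.mul (DifferentiableOn.div (differentiableOn_const _) ?_ ?_) (hd2.pow 2)
    · exact ((hfd.sub_const a).pow 2).mul ((hfd.sub_const b).pow 2)
    · intro w hw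
      exact mul_ne_zero (pow_ne_zero 2 (hna w hw)) (pow_ne_zero 2 (hnb w hw))
  have hIE : IntegrableOn (th a b) (EE lam G φ 0 m) :=
    pul_int a b ε ε' hε hε' _ (hEE 0 m le_rfl le_rfl).2.measurableSet hεa hεb
  have hnorm : ∀ w, ‖th a b (ff lam G φ w) * deriv (ff lam G φ) w ^ 2‖ =
      (‖deriv (ff lam G φ) w‖ ^ 2 : ℝ) • ‖th a b (ff lam G φ w)‖ := by
    intro w
    rw [norm_mul, norm_pow, smul_eq_mul]; ring
  have hEEi : ∀ c d : ℝ, EE lam G φ c d = ff lam G φ '' Sab c d := fun c d => rfl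
  have h2 : IntegrableOn (fun w => th a b (ff lam G φ w) * deriv (ff lam G φ) w ^ 2) (Sm m) := by
    have h3 := (pul_cv (ff lam G φ) (deriv (ff lam G φ)) (Sm m) hSo.measurableSet hder hfi (th a b)).1.mp hIE
    refine Integrable.mono h3 ?_ ?_
    · exact h1.continuousOn.aestronglyMeasurable hSo.measurableSet
    · refine Filter.Eventually.of_forall fun w => ?_
      rw [hnorm, norm_smul, smul_eq_mul, Real.norm_eq_abs, abs_of_nonneg (by positivity)]
  refine ⟨h1, h2, ?_, ?_⟩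
  · intro c d hc hd
    have hsub := pul_sab c d m hc hd
    refine ⟨hIE.mono_set (image_mono hsub), ?_⟩
    rw [hEEi, (pul_cv (ff lam G φ) (deriv (ff lam G φ)) (Sab c d) (pul_open c d).measurableSet
      (fun w hw => hder w (hsub hw)) (hfi.mono hsub) (fun ξ => ‖th a b ξ‖)).2]
    refine integral_congr_ae (Filter.Eventually.of_forall fun w => ?_)
    exact (hnorm w).symm
  · intro μ0 μ hC
    refine ⟨?_, ?_⟩
    · exact hIE.bdd_mul (c := 1) hC.me.aestronglyMeasurable (Filter.Eventually.of_forall fun ξ => hC.le ξ)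
    · rw [hEEi, pul_sm, (pul_cv (ff lam G φ) (deriv (ff lam G φ)) (Sm m) hSo.measurableSet hder hfi
        (fun ξ => μ ξ * th a b ξ)).2, ← integral_const_mul]
      refine setIntegral_congr_fun hSo.measurableSet fun w hw => ?_
      have h4 := hC.aff w hw
      have h5 : ((‖deriv (ff lam G φ) w‖ ^ 2 : ℝ) : ℂ) = deriv (ff lam G φ) w * conj (deriv (ff lam G φ) w) := by
        rw [Complex.mul_conj']; push_cast; rfl
      simp only [Complex.real_smul]
      rw [h5]
      linear_combination (deriv (ff lam G φ) w * th a b (ff lam G φ w)) * h4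

end Pool.Agent.Helper66.QT
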