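import Pool.Agent.Helper85.QT.St3

/-!
# Project QT, module TGF: flat height along a geodesic.
-/

set_option autoImplicit false

open MeasureTheory Matrix Set Topology
open scoped ENNReal ComplexConjugate

namespace Pool.Agent.Helper66.QT

open Pool.Agent.Helper85.QT Pool.Agent.Helper86.QA

theorem tgf_xm (a b : ℂ) (hab : a ≠ b) (u : ℝ) :
    Xm (gp a b u) = !![(((Real.exp u * ‖a‖ ^ 2 + Real.exp (-u) * ‖b‖ ^ 2) / ‖a - b‖ : ℝ) : ℂ),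
      (((Real.exp u : ℝ) : ℂ) * a + ((Real.exp (-u) : ℝ) : ℂ) * b) / (‖a - b‖ : ℂ);
      (((Real.exp u : ℝ) : ℂ) * conj a + ((Real.exp (-u) : ℝ) : ℂ) * conj b) / (‖a - b‖ : ℂ),
      (((Real.exp u + Real.exp (-u)) / ‖a - b‖ : ℝ) : ℂ)] := by
  have hl : 0 < ‖a - b‖ := norm_pos_iff.mpr (sub_ne_zero.mpr hab)
  have hp : 0 < Real.exp u := Real.exp_pos u
  have hq : 0 < Real.exp (-u) := Real.exp_pos (-u)
  have hpq : Real.exp u * Real.exp (-u) = 1 := by rw [← Real.exp_add]; simp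
  unfold Xm gp
  dsimp only
  generalize hP : Real.exp u = p at *
  generalize hQ : Real.exp (-u) = q at *
  generalize hL : ‖a - b‖ = l at *
  have hs : 0 < p + q := by positivity
  have hsc : ((p : ℂ) + (q : ℂ)) ≠ 0 := by
    have : ((p + q : ℝ) : ℂ) ≠ 0 := by exact_mod_cast hs.ne'
    rwa [Complex.ofReal_add] at this
  have hlc : (l : ℂ) ≠ 0 := by exact_mod_cast hl.ne'
  have e00 : (‖((p : ℂ) * a + (q : ℂ) * b) / ((p + q : ℝ) : ℂ)‖ ^ 2 + (l / (p + q)) ^ 2) / (l / (p + q)) =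
      (p * ‖a‖ ^ 2 + q * ‖b‖ ^ 2) / l := by
    rw [norm_div, Complex.norm_real, Real.norm_eq_abs, abs_of_pos hs]
    have h1 : ‖(p : ℂ) * a + (q : ℂ) * b‖ ^ 2 + l ^ 2 = (p * ‖a‖ ^ 2 + q * ‖b‖ ^ 2) * (p + q) := by
      rw [← hL, Complex.sq_norm, Complex.sq_norm, Complex.sq_norm, Complex.sq_norm, Complex.normSq_apply,
        Complex.normSq_apply, Complex.normSq_apply, Complex.normSq_apply]
      simp only [Complex.add_re, Complex.add_im, Complex.mul_re, Complex.mul_im, Complex.ofReal_re, Complex.ofReal_im,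
        Complex.sub_re, Complex.sub_im]
      linear_combination (-((a.re - b.re) ^ 2 + (a.im - b.im) ^ 2)) * hpq
    field_simp
    linear_combination h1
  refine Matrix.ext fun i j => ?_
  fin_cases i <;> fin_cases j
  · simp only [Matrix.of_apply, Matrix.cons_val', Matrix.cons_val_zero, Matrix.cons_val_one,
      Matrix.cons_val_fin_one, Fin.zero_eta, Fin.mk_one, Fin.isValue]
    rw [e00]
  · simp only [Matrix.of_apply, Matrix.cons_val', Matrix.cons_val_zero, Matrix.cons_val_one,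
      Matrix.cons_val_fin_one, Fin.zero_eta, Fin.mk_one, Fin.isValue]
    push_cast
    field_simp
  · simp only [Matrix.of_apply, Matrix.cons_val', Matrix.cons_val_zero, Matrix.cons_val_one,
      Matrix.cons_val_fin_one, Fin.zero_eta, Fin.mk_one, Fin.isValue]
    rw [map_div₀, map_add, map_mul, map_mul, Complex.conj_ofReal, Complex.conj_ofReal, Complex.conj_ofReal]
    push_cast
    field_simp
  · simp only [Matrix.of_apply, Matrix.cons_val', Matrix.cons_val_zero, Matrix.cons_val_one,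
      Matrix.cons_val_fin_one, Fin.zero_eta, Fin.mk_one, Fin.isValue]
    push_cast
    field_simp

theorem tgf_up (a b : ℂ) (hab : a ≠ b) (u : ℝ) : gp a b u ∈ up := by
  have hl : 0 < ‖a - b‖ := norm_pos_iff.mpr (sub_ne_zero.mpr hab)
  show 0 < ‖a - b‖ / (Real.exp u + Real.exp (-u))
  positivity

/-- the quantity `p |x a + y|² + q |x b + y|²` as an entry of `M X Mᴴ` -/
theorem tgf_ent (x y a b : ℂ) (p q l : ℝ) (hl : 0 < l) :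
    (x * (((p * ‖a‖ ^ 2 + q * ‖b‖ ^ 2) / l : ℝ) : ℂ) + y * (((p : ℂ) * conj a + (q : ℂ) * conj b) / (l : ℂ))) * conj x +
      (x * (((p : ℂ) * a + (q : ℂ) * b) / (l : ℂ)) + y * (((p + q) / l : ℝ) : ℂ)) * conj y =
    (((p * ‖x * a + y‖ ^ 2 + q * ‖x * b + y‖ ^ 2) / l : ℝ) : ℂ) := by
  have hlc : (l : ℂ) ≠ 0 := by exact_mod_cast hl.ne'
  push_cast
  rw [← Complex.mul_conj' (x * a + y), ← Complex.mul_conj' (x * b + y), ← Complex.mul_conj' a, ← Complex.mul_conj' b]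
  simp only [map_add, map_mul]
  field_simp
  ring

theorem tgf_y (hACT : StACT) (M : SL) (a b : ℂ) (hab : a ≠ b) (u : ℝ) :
    0 < (ga M (gp a b u)).2 ∧
    1 / (ga M (gp a b u)).2 = (Real.exp u * ‖M 1 0 * a + M 1 1‖ ^ 2 + Real.exp (-u) * ‖M 1 0 * b + M 1 1‖ ^ 2) / ‖a - b‖ ∧
    NN (ga M (gp a b u)) / (ga M (gp a b u)).2 =
      (Real.exp u * ‖M 0 0 * a + M 0 1‖ ^ 2 + Real.exp (-u) * ‖M 0 0 * b + M 0 1‖ ^ 2) / ‖a - b‖ := by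
  have hl : 0 < ‖a - b‖ := norm_pos_iff.mpr (sub_ne_zero.mpr hab)
  obtain ⟨-, hy, hX⟩ := hACT.1 M (gp a b u) (tgf_up a b hab u)
  have hy' : 0 < (ga M (gp a b u)).2 := hy
  refine ⟨hy', ?_, ?_⟩
  · have h := congrFun (congrFun hX 1) 1
    rw [tgf_xm a b hab u] at h
    simp only [Xm, Matrix.mul_apply, Fin.sum_univ_two, Matrix.conjTranspose_apply, Matrix.of_apply, Matrix.cons_val',
      Matrix.cons_val_zero, Matrix.cons_val_one, Matrix.cons_val_fin_one, Fin.isValue] at h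
    rw [show star (M.1 1 0) = conj (M.1 1 0) from rfl, show star (M.1 1 1) = conj (M.1 1 1) from rfl] at h
    have h2 := tgf_ent (M 1 0) (M 1 1) a b (Real.exp u) (Real.exp (-u)) ‖a - b‖ hl
    have h3 := h.trans h2
    exact_mod_cast h3
  · have h := congrFun (congrFun hX 0) 0
    rw [tgf_xm a b hab u] at h
    simp only [Xm, Matrix.mul_apply, Fin.sum_univ_two, Matrix.conjTranspose_apply, Matrix.of_apply, Matrix.cons_val',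
      Matrix.cons_val_zero, Matrix.cons_val_one, Matrix.cons_val_fin_one, Fin.isValue] at h
    rw [show star (M.1 0 0) = conj (M.1 0 0) from rfl, show star (M.1 0 1) = conj (M.1 0 1) from rfl] at h
    have h2 := tgf_ent (M 0 0) (M 0 1) a b (Real.exp u) (Real.exp (-u)) ‖a - b‖ hl
    have h3 := h.trans h2
    unfold NN
    exact_mod_cast h3

/-- the elementary identity -/
theorem tgf_alg (u Pa Qa Pb Qb l L : ℝ) (hPa : 0 < Pa) (hQa : 0 < Qa) (hPb : 0 < Pb) (hQb : 0 < Qb) (hl : 0 < l)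
    (hL : 0 < L) :
    1 / (L ^ 2 * ((Real.exp u * Pa ^ 2 + Real.exp (-u) * Pb ^ 2) / l) *
      ((Real.exp u * Qa ^ 2 + Real.exp (-u) * Qb ^ 2) / l)) =
    ((l / (Qa * Qb)) ^ 2 / ((Pa / Qa) * (Pb / Qb))) /
      (L ^ 2 * (2 * Real.cosh (2 * (u - 1 / 2 * Real.log (Pb * Qb / (Pa * Qa)))) + (Pa / Qa) / (Pb / Qb) +
        (Pb / Qb) / (Pa / Qa))) := by
  have hc : 2 * Real.cosh (2 * (u - 1 / 2 * Real.log (Pb * Qb / (Pa * Qa)))) =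
      Real.exp u ^ 2 * (Pa * Qa / (Pb * Qb)) + Real.exp (-u) ^ 2 * (Pb * Qb / (Pa * Qa)) := by
    have h0 : 0 < Pb * Qb / (Pa * Qa) := by positivity
    rw [Real.cosh_eq]
    rw [show 2 * (u - 1 / 2 * Real.log (Pb * Qb / (Pa * Qa))) = u + u - Real.log (Pb * Qb / (Pa * Qa)) by ring]
    rw [show -(u + u - Real.log (Pb * Qb / (Pa * Qa))) = -u + -u + Real.log (Pb * Qb / (Pa * Qa)) by ring]
    rw [Real.exp_sub, Real.exp_add, Real.exp_add (-u + -u), Real.exp_add, Real.exp_log h0]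
    field_simp
  rw [hc]
  have hpq : Real.exp u * Real.exp (-u) = 1 := by rw [← Real.exp_add]; simp
  have hp : 0 < Real.exp u := Real.exp_pos u
  have hq : 0 < Real.exp (-u) := Real.exp_pos (-u)
  generalize hP : Real.exp u = p at *
  generalize hQ : Real.exp (-u) = q at *
  have e1 : 0 < L ^ 2 * ((p * Pa ^ 2 + q * Pb ^ 2) / l) * ((p * Qa ^ 2 + q * Qb ^ 2) / l) := by positivity
  have e2 : 0 < L ^ 2 * (p ^ 2 * (Pa * Qa / (Pb * Qb)) + q ^ 2 * (Pb * Qb / (Pa * Qa)) + (Pa / Qa) / (Pb / Qb) +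
        (Pb / Qb) / (Pa / Qa)) := by positivity
  rw [div_eq_div_iff e1.ne' e2.ne']
  field_simp
  have e3 : (p * Pa ^ 2 + q * Pb ^ 2) * (p * Qa ^ 2 + q * Qb ^ 2) =
      p ^ 2 * Pa ^ 2 * Qa ^ 2 + q ^ 2 * Pb ^ 2 * Qb ^ 2 + Pa ^ 2 * Qb ^ 2 + Pb ^ 2 * Qa ^ 2 := by
    linear_combination (Pa ^ 2 * Qb ^ 2 + Pb ^ 2 * Qa ^ 2) * hpq
  nlinarith [e3]

theorem tgf_dec (K L c1 c2 A : ℝ) (hK : 0 ≤ K) (hL : 0 < L) (hA : 0 ≤ A) (h1 : 1 ≤ c1) (h : c1 ≤ c2) :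
    K / (L ^ 2 * (2 * c2 + A)) ≤ K / (L ^ 2 * (2 * c1 + A)) := by
  apply div_le_div_of_nonneg_left hK (by positivity)
  apply mul_le_mul_of_nonneg_left _ (by positivity)
  linarith

theorem hTGF (hACT : Pool.Agent.Helper86.QA.StACT) (hCHV : Pool.Agent.Helper86.QA.StCHV)
    (_hSB5 : Pool.Agent.Helper85.QT.StSB5) : Pool.Agent.Helper85.QT.StTGF := by
  intro Γ _ ρ lam hlam g a b hab ha hb
  have hL : 0 < ‖lam‖ := norm_pos_iff.mpr hlam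
  have hl : 0 < ‖a - b‖ := norm_pos_iff.mpr (sub_ne_zero.mpr hab)
  unfold pq at ha hb
  have hpa : (ρ g⁻¹) 0 0 * a + (ρ g⁻¹) 0 1 ≠ 0 := left_ne_zero_of_mul ha
  have hqa : (ρ g⁻¹) 1 0 * a + (ρ g⁻¹) 1 1 ≠ 0 := right_ne_zero_of_mul ha
  have hpb : (ρ g⁻¹) 0 0 * b + (ρ g⁻¹) 0 1 ≠ 0 := left_ne_zero_of_mul hb
  have hqb : (ρ g⁻¹) 1 0 * b + (ρ g⁻¹) 1 1 ≠ 0 := right_ne_zero_of_mul hb
  have e1 : ‖mb (ρ g⁻¹) a - mb (ρ g⁻¹) b‖ = ‖a - b‖ /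
      (‖(ρ g⁻¹) 1 0 * a + (ρ g⁻¹) 1 1‖ * ‖(ρ g⁻¹) 1 0 * b + (ρ g⁻¹) 1 1‖) := by
    rw [hCHV.2.2.1 (ρ g⁻¹) a b hqa hqb, norm_div, norm_mul]
  have e2 : ‖mb (ρ g⁻¹) a‖ = ‖(ρ g⁻¹) 0 0 * a + (ρ g⁻¹) 0 1‖ / ‖(ρ g⁻¹) 1 0 * a + (ρ g⁻¹) 1 1‖ := by
    unfold mb; rw [norm_div]
  have e3 : ‖mb (ρ g⁻¹) b‖ = ‖(ρ g⁻¹) 0 0 * b + (ρ g⁻¹) 0 1‖ / ‖(ρ g⁻¹) 1 0 * b + (ρ g⁻¹) 1 1‖ := by
    unfold mb; rw [norm_div]
  have e4 : cen ρ g a b = 1 / 2 * Real.log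
      (‖(ρ g⁻¹) 0 0 * b + (ρ g⁻¹) 0 1‖ * ‖(ρ g⁻¹) 1 0 * b + (ρ g⁻¹) 1 1‖ /
        (‖(ρ g⁻¹) 0 0 * a + (ρ g⁻¹) 0 1‖ * ‖(ρ g⁻¹) 1 0 * a + (ρ g⁻¹) 1 1‖)) := by
    unfold cen pq; rw [norm_mul, norm_mul]
  have hNN : ∀ u : ℝ, 0 < NN (ga (ρ g⁻¹) (gp a b u)) := by
    intro u
    obtain ⟨h1, -, -⟩ := tgf_y hACT (ρ g⁻¹) a b hab u
    unfold NN
    positivity
  have hpos : ∀ u : ℝ, 0 < Tg ρ lam g (gp a b u) := by
    intro u
    obtain ⟨h1, -, -⟩ := tgf_y hACT (ρ g⁻¹) a b hab u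
    have h2 := hNN u
    unfold Tg TT
    have h3 : 0 < Real.sqrt (NN (ga (ρ g⁻¹) (gp a b u))) := Real.sqrt_pos.mpr h2
    positivity
  have hmain : ∀ u : ℝ, Tg ρ lam g (gp a b u) ^ 2 =
    (‖mb (ρ g⁻¹) a - mb (ρ g⁻¹) b‖ ^ 2 / (‖mb (ρ g⁻¹) a‖ * ‖mb (ρ g⁻¹) b‖)) /
    (‖lam‖ ^ 2 * (2 * Real.cosh (2 * (u - cen ρ g a b)) + ‖mb (ρ g⁻¹) a‖ / ‖mb (ρ g⁻¹) b‖ +
      ‖mb (ρ g⁻¹) b‖ / ‖mb (ρ g⁻¹) a‖)) := by
    intro u
    obtain ⟨h1, h2, h3⟩ := tgf_y hACT (ρ g⁻¹) a b hab u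
    have h4 := hNN u
    have h5 : Tg ρ lam g (gp a b u) ^ 2 = 1 / (‖lam‖ ^ 2 *
        (NN (ga (ρ g⁻¹) (gp a b u)) / (ga (ρ g⁻¹) (gp a b u)).2) * (1 / (ga (ρ g⁻¹) (gp a b u)).2)) := by
      unfold Tg TT
      rw [div_pow, mul_pow, Real.sq_sqrt h4.le]
      field_simp
    rw [h5, h2, h3, e1, e2, e3, e4]
    exact tgf_alg u _ _ _ _ _ _ (norm_pos_iff.mpr hpa) (norm_pos_iff.mpr hqa) (norm_pos_iff.mpr hpb)
      (norm_pos_iff.mpr hqb) hl hL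
  have hK : 0 ≤ ‖mb (ρ g⁻¹) a - mb (ρ g⁻¹) b‖ ^ 2 / (‖mb (ρ g⁻¹) a‖ * ‖mb (ρ g⁻¹) b‖) := by positivity
  have hA1 : 0 ≤ ‖mb (ρ g⁻¹) a‖ / ‖mb (ρ g⁻¹) b‖ := by positivity
  have hA2 : 0 ≤ ‖mb (ρ g⁻¹) b‖ / ‖mb (ρ g⁻¹) a‖ := by positivity
  refine ⟨hmain, hpos, ?_, ?_, ?_⟩
  · have h1 : (fun u : ℝ => Tg ρ lam g (gp a b u)) = fun u : ℝ => Real.sqrt
        ((‖mb (ρ g⁻¹) a - mb (ρ g⁻¹) b‖ ^ 2 / (‖mb (ρ g⁻¹) a‖ * ‖mb (ρ g⁻¹) b‖)) /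
        (‖lam‖ ^ 2 * (2 * Real.cosh (2 * (u - cen ρ g a b)) + ‖mb (ρ g⁻¹) a‖ / ‖mb (ρ g⁻¹) b‖ +
        ‖mb (ρ g⁻¹) b‖ / ‖mb (ρ g⁻¹) a‖))) := by
      funext u
      rw [← hmain u, Real.sqrt_sq (hpos u).le]
    rw [h1]
    apply Real.continuous_sqrt.comp
    apply Continuous.div continuous_const
    · have := Real.continuous_cosh
      fun_prop
    · intro u
      have := Real.one_le_cosh (2 * (u - cen ρ g a b))
      positivity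
  · intro u u' huu
    have h1 : Tg ρ lam g (gp a b u') ^ 2 ≤ Tg ρ lam g (gp a b u) ^ 2 := by
      rw [hmain u, hmain u', add_assoc, add_assoc]
      apply tgf_dec _ _ _ _ _ hK hL (add_nonneg hA1 hA2) (Real.one_le_cosh _)
      rw [Real.cosh_le_cosh, abs_mul, abs_mul]
      exact mul_le_mul_of_nonneg_left huu (abs_nonneg _)
    exact (abs_le_of_sq_le_sq' h1 (hpos u).le).2
  · intro c hc
    refine ⟨(‖mb (ρ g⁻¹) a - mb (ρ g⁻¹) b‖ ^ 2 / (‖mb (ρ g⁻¹) a‖ * ‖mb (ρ g⁻¹) b‖)) / (‖lam‖ ^ 2 * c ^ 2), ?_⟩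
    intro u hu
    have h1 : Tg ρ lam g (gp a b u) ^ 2 < c ^ 2 := by
      rw [hmain u]
      have h2 : 1 + 2 * |u - cen ρ g a b| ≤ 2 * Real.cosh (2 * (u - cen ρ g a b)) := by
        rw [← Real.cosh_abs, Real.cosh_eq, abs_mul]
        have h3 := Real.add_one_le_exp (|(2 : ℝ)| * |u - cen ρ g a b|)
        have h4 := Real.exp_pos (-(|(2 : ℝ)| * |u - cen ρ g a b|))
        rw [abs_two] at h3 h4 ⊢
        linarith
      have h3 : 0 < ‖lam‖ ^ 2 := by positivity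
      have h0 : 0 ≤ |u - cen ρ g a b| := abs_nonneg _
      rw [div_lt_iff₀ (by positivity)]
      rw [div_le_iff₀ (by positivity)] at hu
      have h5 : 0 < ‖lam‖ ^ 2 * c ^ 2 := by positivity
      nlinarith [mul_le_mul_of_nonneg_left h2 h5.le, mul_nonneg h5.le hA1, mul_nonneg h5.le hA2, mul_nonneg h5.le h0]
    exact (abs_lt_of_sq_lt_sq' h1 hc.le).2

end Pool.Agent.Helper66.QT
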